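import Pool.Agent.Helper61.FN.Goals

/-!
# Packet FN-FLD (MP_06d934_gt): the function field
-/

set_option autoImplicit false

namespace Pool.Agent.Helper89.FN

open Pool.Agent.Helper61.FN MvPolynomial

theorem prod_toNat {E k : Type} [Fintype E] [Field k] (x : E → k) (hx : ∀ e, x e ≠ 0)
    (m : E → ℤ) (N : ℕ) (h : ∀ e, 0 ≤ m e + N) :
    ∏ e, x e ^ (m e + N).toNat = (∏ e, x e ^ N) * mon x m := by
  rw [mon, ← Finset.prod_mul_distrib]
  refine Finset.prod_congr rfl fun e _ ↦ ?_
  rw [← zpow_natCast, Int.toNat_of_nonneg (h e), zpow_add₀ (hx e), zpow_natCast, mul_comm]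

/-- The polynomial. -/
noncomputable def pol {F E J : Type} [Field F] [Fintype E] [Fintype J] (c : J → F) (m : J → E → ℤ)
    (c0 : F) (N : ℕ) : MvPolynomial E F :=
  (∑ j, C (c j) * ∏ e, X e ^ (m j e + N).toNat) - C c0 * ∏ e, X e ^ N

theorem aeval_pol {F E J k : Type} [Field F] [Fintype E] [Fintype J] [Field k] [Algebra F k]
    (c : J → F) (m : J → E → ℤ) (c0 : F) (N : ℕ) (h : ∀ j e, 0 ≤ m j e + N) (x : E → k)
    (hx : ∀ e, x e ≠ 0) :
    aeval x (pol c m c0 N) = (∏ e, x e ^ N) *
      (∑ j, algebraMap F k (c j) * mon x (m j) - algebraMap F k c0) := by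
  rw [pol, map_sub, map_sum, mul_sub, Finset.mul_sum]
  congr 1
  · refine Finset.sum_congr rfl fun j _ ↦ ?_
    rw [map_mul, map_prod, algHom_C]
    simp only [map_pow, aeval_X]
    rw [prod_toNat x hx (m j) N (h j)]
    ring
  · rw [map_mul, map_prod, algHom_C]
    simp only [map_pow, aeval_X]
    ring

theorem goalFLD (hP : G_PRM) : G_FLD := by
  intro F E _ _ Z hZ hz
  obtain ⟨P, hPp, hPv, hPX, e0, he0⟩ := hP F E Z hZ hz
  let R : Type := MvPolynomial E F ⧸ P
  let K : Type := FractionRing R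
  let x : E → K := fun e ↦ algebraMap R K (Ideal.Quotient.mk P (X e))
  have hinj : Function.Injective (algebraMap R K) := IsFractionRing.injective R K
  have hx : ∀ e, x e ≠ 0 := by
    intro e h
    have h1 : (Ideal.Quotient.mk P (X e)) = 0 := hinj (by rw [map_zero]; exact h)
    exact hPX e (Ideal.Quotient.eq_zero_iff_mem.1 h1)
  have hae : ∀ p : MvPolynomial E F, algebraMap R K (Ideal.Quotient.mk P p) = aeval x p := by
    intro p
    have h1 : ((IsScalarTower.toAlgHom F R K).comp (Ideal.Quotient.mkₐ F P)) = aeval x := by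
      refine MvPolynomial.algHom_ext fun e ↦ ?_
      rw [aeval_X]
      rfl
    exact DFunLike.congr_fun h1 p
  refine ⟨K, inferInstance, inferInstance, x, hx, ?_, ⟨e0, ?_⟩, ?_⟩
  · rw [eq_top_iff]
    intro y _
    obtain ⟨a, b, hab⟩ := IsFractionRing.div_surjective (A := R) y
    have hmem : ∀ a : R, algebraMap R K a ∈ IntermediateField.adjoin F (Set.range x) := by
      intro a
      obtain ⟨p, rfl⟩ := Ideal.Quotient.mk_surjective a
      rw [hae]
      apply IntermediateField.algebra_adjoin_le_adjoin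
      rw [Algebra.adjoin_range_eq_range_aeval]
      exact ⟨p, rfl⟩
    rw [← hab.2]
    exact div_mem (hmem a) (hmem b)
  · exact (transcendental_algebraMap_iff hinj).2 he0
  · intro J _ c m c0 hc
    obtain ⟨N, hN⟩ : ∃ N : ℕ, ∀ j e, 0 ≤ m j e + N := by
      refine ⟨∑ j, ∑ e, (m j e).natAbs, fun j e ↦ ?_⟩
      have h1 : (m j e).natAbs ≤ ∑ j, ∑ e, (m j e).natAbs :=
        (Finset.single_le_sum (f := fun e ↦ (m j e).natAbs) (fun _ _ ↦ Nat.zero_le _)
          (Finset.mem_univ e)).trans
        (Finset.single_le_sum (f := fun j ↦ ∑ e, (m j e).natAbs) (fun _ _ ↦ Nat.zero_le _)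
          (Finset.mem_univ j))
      omega
    have h2 : pol c m c0 N ∈ P := by
      refine hPv _ fun z hzZ ↦ ?_
      have h3 := aeval_pol (k := F) c m c0 N hN z (hz z hzZ)
      have h8 : MvPolynomial.eval z (pol c m c0 N) = aeval z (pol c m c0 N) := by
        rw [MvPolynomial.aeval_eq_eval]
      rw [h8, h3]
      have h4 := hc z hzZ
      simp only [Algebra.algebraMap_self, RingHom.id_apply]
      rw [h4, sub_self, mul_zero]
    have h5 : aeval x (pol c m c0 N) = 0 := by
      rw [← hae, Ideal.Quotient.eq_zero_iff_mem.2 h2, map_zero]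
    rw [aeval_pol c m c0 N hN x hx] at h5
    rcases mul_eq_zero.1 h5 with h6 | h6
    · exfalso
      exact (Finset.prod_ne_zero_iff.2 fun e _ ↦ pow_ne_zero _ (hx e)) h6
    · exact sub_eq_zero.1 h6

end Pool.Agent.Helper89.FN
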